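import Pool.Agent.EGF.StmtsV

/-!
# Row FAN of squad EGF, block V (MP_1090a0_co): from a spot to a star structure
-/

set_option autoImplicit false

open Finset

namespace Pool.Agent.EGF.H37

open Pool.Agent.EGF

theorem card_prs {V : Type} [DecidableEq V] {k : ℕ} (c : V → V → Fin k) (g : Fin k)
    (A B : Finset V) :
    (prs c g A B).card = ∑ x ∈ A, (B.filter fun y => c x y = g).card := by
  unfold prs
  rw [Finset.card_filter, Finset.sum_product]
  refine Finset.sum_congr rfl ?_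
  intro x _
  rw [Finset.card_filter]

theorem fan : FanStmt := by
  intro V _ k c g A B q N hq hq1 hN hA hB hdis hd
  set T : ℕ := ⌈q / 2 * (N : ℝ)⌉₊ with hT
  set deg : V → ℕ := fun x => (B.filter fun y => c x y = g).card with hdeg
  have hN0 : (0 : ℝ) < N := by exact_mod_cast hN
  set S : Finset V := A.filter fun x => T ≤ deg x with hS
  have hdegB : ∀ x, (deg x : ℝ) ≤ N := by
    intro x
    have h1 : deg x ≤ B.card := Finset.card_filter_le _ _
    rw [hB] at h1
    exact_mod_cast h1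
  have hsum : ((prs c g A B).card : ℝ) = ∑ x ∈ A, (deg x : ℝ) := by
    rw [card_prs]
    push_cast
    rfl
  have hsplit : ∑ x ∈ A, (deg x : ℝ) =
      ∑ x ∈ S, (deg x : ℝ) + ∑ x ∈ A.filter (fun x => ¬ T ≤ deg x), (deg x : ℝ) := by
    rw [hS, Finset.sum_filter_add_sum_filter_not]
  have h1 : ∑ x ∈ S, (deg x : ℝ) ≤ (S.card : ℝ) * N := by
    have := Finset.sum_le_card_nsmul S (fun x => (deg x : ℝ)) (N : ℝ) (fun x _ => hdegB x)
    rwa [nsmul_eq_mul] at this
  have h2 : ∑ x ∈ A.filter (fun x => ¬ T ≤ deg x), (deg x : ℝ) ≤ (N : ℝ) * (q / 2 * N) := by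
    have h3 := Finset.sum_le_card_nsmul (A.filter (fun x => ¬ T ≤ deg x))
      (fun x => (deg x : ℝ)) (q / 2 * (N : ℝ)) (fun x hx => by
        have h4 := (Finset.mem_filter.mp hx).2
        rw [not_le, hT, Nat.lt_ceil] at h4
        exact h4.le)
    rw [nsmul_eq_mul] at h3
    have h5 : ((A.filter (fun x => ¬ T ≤ deg x)).card : ℝ) ≤ N := by
      have := Finset.card_filter_le A (fun x => ¬ T ≤ deg x)
      rw [hA] at this
      exact_mod_cast this
    have h6 : (0 : ℝ) ≤ q / 2 * N := by positivity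
    exact h3.trans (mul_le_mul_of_nonneg_right h5 h6)
  have hSc : q / 2 * (N : ℝ) ≤ (S.card : ℝ) := by
    have h7 : q * ((N : ℝ) * N) ≤ (S.card : ℝ) * N + (N : ℝ) * (q / 2 * N) := by
      calc q * ((N : ℝ) * N) ≤ ((prs c g A B).card : ℝ) := hd
        _ = _ := hsum
        _ = _ := hsplit
        _ ≤ _ := add_le_add h1 h2
    have h8 : (q / 2 * (N : ℝ)) * N ≤ (S.card : ℝ) * N := by nlinarith
    exact le_of_mul_le_mul_right h8 hN0
  have hTS : T ≤ S.card := by
    rw [hT]
    exact Nat.ceil_le.mpr hSc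
  obtain ⟨X0, hX0, hX0c⟩ := Finset.exists_subset_card_eq hTS
  have hR : ∀ x : V, ∃ R : Finset V, x ∈ X0 →
      R ⊆ B ∧ R.card = T ∧ ∀ w ∈ R, w ≠ x ∧ c x w = g := by
    intro x
    by_cases hx : x ∈ X0
    · have hxS := Finset.mem_filter.mp (hX0 hx)
      obtain ⟨R, hR, hRc⟩ := Finset.exists_subset_card_eq hxS.2
      refine ⟨R, fun _ => ⟨fun w hw => (Finset.mem_filter.mp (hR hw)).1, hRc, ?_⟩⟩
      intro w hw
      have hw2 := Finset.mem_filter.mp (hR hw)
      refine ⟨?_, hw2.2⟩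
      rintro rfl
      exact (Finset.disjoint_left.mp hdis hxS.1) hw2.1
    · exact ⟨∅, fun h => absurd h hx⟩
  choose R hR using hR
  refine ⟨X0, fun x hx => (Finset.mem_filter.mp (hX0 hx)).1, R, hX0c, ?_⟩
  intro x hx
  exact hR x hx

end Pool.Agent.EGF.H37
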